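import Mathlib
import Pool.Agent.H69.OkunevU

set_option autoImplicit false

namespace Pool.Agent.Results.MP_d57a60_gt.ClosureInRealcompactification

open Set Topology Filter TopologicalSpace

universe u

/-- `Z` is a Lindelof Sigma-space: a continuous image of a closed subspace `F` of `K × M`, where
`K` is a compact Hausdorff space and `M` is a separable metrizable space. -/
def IsLindelofSigma (Z : Type u) [TopologicalSpace Z] : Prop :=
  ∃ (K M : Type u) (_ : TopologicalSpace K) (_ : TopologicalSpace M)
    (F : Set (K × M)) (g : F → Z),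
    CompactSpace K ∧ T2Space K ∧ SeparableSpace M ∧ MetrizableSpace M ∧
      IsClosed F ∧ Continuous g ∧ Function.Surjective g

/-- `C_p(X,[a,b])`: the continuous functions from `X` to `[a,b]`, as a subspace of the product
`ℝ^X` (topology of pointwise convergence). -/
abbrev CpInterval (X : Type u) [TopologicalSpace X] (a b : ℝ) : Type u :=
  {f : X → ℝ // Continuous f ∧ ∀ x, a ≤ f x ∧ f x ≤ b}

/-- `e : X → R` is the Hewitt realcompactification of `X`: `R` is realcompact (homeomorphic to a
closed subspace of a product of real lines), `e` embeds `X` as a dense subspace, and every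
continuous real function on `X` extends to a continuous real function on `R`. -/
structure IsRealcompactification {X R : Type u} [TopologicalSpace X] [TopologicalSpace R]
    (e : X → R) : Prop where
  isEmbedding : IsEmbedding e
  dense : DenseRange e
  realcompact : ∃ (J : Type u) (φ : R → (J → ℝ)), IsClosedEmbedding φ
  extension : ∀ f : X → ℝ, Continuous f → ∃ g : R → ℝ, Continuous g ∧ ∀ x, g (e x) = f x

/-- A countable network modulo a cover by compact sets. -/
private def HasNetwork (Z : Type u) [TopologicalSpace Z] : Prop :=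
  ∃ 𝓕 : Set (Set Z), 𝓕.Countable ∧ ∀ z : Z, ∃ C : Set Z, IsCompact C ∧ z ∈ C ∧
    ∀ U : Set Z, IsOpen U → C ⊆ U → ∃ F ∈ 𝓕, C ⊆ F ∧ F ⊆ U

private lemma network_of_sigma {Z : Type u} [TopologicalSpace Z] (h : IsLindelofSigma Z) :
    HasNetwork Z := by
  obtain ⟨K, M, tK, tM, F, g, cK, hK, hM, mM, hF, hg, hgs⟩ := h
  letI := metrizableSpaceMetric M
  haveI : SecondCountableTopology M := UniformSpace.secondCountable_of_separable M
  let π : F → M := fun p => p.1.2
  have hπc : Continuous π := continuous_snd.comp continuous_subtype_val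
  have hπ : IsClosedMap π := by
    have h1 : IsClosedMap (Subtype.val : F → K × M) := hF.isClosedMap_subtype_val
    have h2 : IsClosedMap (Prod.snd : K × M → M) := isClosedMap_snd_of_compactSpace
    exact h2.comp h1
  refine ⟨(fun b : Set M => g '' (π ⁻¹' b)) '' countableBasis M,
    (countable_countableBasis M).image _, ?_⟩
  intro z
  obtain ⟨p, rfl⟩ := hgs z
  have hfib : IsCompact (π ⁻¹' {π p}) := by
    have hemb : IsClosedEmbedding (Subtype.val : F → K × M) := hF.isClosedEmbedding_subtypeVal
    rw [hemb.isInducing.isCompact_iff]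
    have hc : IsCompact ((univ : Set K) ×ˢ ({π p} : Set M)) :=
      isCompact_univ.prod isCompact_singleton
    have hcl : IsClosed (π ⁻¹' {π p}) := isClosed_singleton.preimage hπc
    refine hc.of_isClosed_subset (hemb.isClosedMap _ hcl) ?_
    rintro _ ⟨q, hq, rfl⟩
    exact ⟨mem_univ _, hq⟩
  refine ⟨g '' (π ⁻¹' {π p}), hfib.image hg, ⟨p, rfl, rfl⟩, ?_⟩
  intro U hU hCU
  have hV : IsOpen (g ⁻¹' U) := hU.preimage hg
  have hW : IsOpen (π '' (g ⁻¹' U)ᶜ)ᶜ := (hπ _ hV.isClosed_compl).isOpen_compl
  have hm : π p ∈ (π '' (g ⁻¹' U)ᶜ)ᶜ := by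
    rintro ⟨q, hq, hqp⟩
    exact hq (hCU ⟨q, hqp, rfl⟩)
  obtain ⟨b, hb, hpb, hbW⟩ := (isBasis_countableBasis M).exists_subset_of_mem_open hm hW
  refine ⟨_, ⟨b, hb, rfl⟩, ?_, ?_⟩
  · refine image_mono ?_
    intro q hq
    have : π q = π p := hq
    change π q ∈ b
    rw [this]
    exact hpb
  · rintro _ ⟨q, hq, rfl⟩
    by_contra hn
    exact hbW hq ⟨q, hn, rfl⟩

private lemma sigma_of_network {Z : Type u} [TopologicalSpace Z] [T35Space Z]
    (h : HasNetwork Z) : IsLindelofSigma Z := by
  classical
  obtain ⟨𝓕, hc, hF⟩ := h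
  choose C hC hzC hU using hF
  haveI : Countable 𝓕 := hc.to_subtype
  let A : Set (𝓕 → Bool) := {a | ∃ z, ∀ N : 𝓕, a N = true ↔ C z ⊆ N.1}
  let j : Z → StoneCech Z := stoneCechUnit
  have hj : IsEmbedding j := isEmbedding_stoneCechUnit
  let F : Set (StoneCech Z × A) := {q | ∀ N : 𝓕, q.2.1 N = true → q.1 ∈ closure (j '' N.1)}
  have key : ∀ (z : Z) (p : StoneCech Z),
      (∀ N : 𝓕, C z ⊆ N.1 → p ∈ closure (j '' N.1)) → p ∈ j '' (C z) := by
    intro z p hp
    by_contra hn
    have hcomp : IsCompact (j '' C z) := (hC z).image hj.continuous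
    obtain ⟨U, V, hUo, hVo, hCU, hpV, hUV⟩ := hcomp.separation_of_notMem hn
    obtain ⟨N, hN, hCN, hNU⟩ := hU z (j ⁻¹' U) (hUo.preimage hj.continuous)
      (fun y hy => hCU ⟨y, hy, rfl⟩)
    have h1 := hp ⟨N, hN⟩ hCN
    rw [mem_closure_iff] at h1
    obtain ⟨_, hV, ⟨y, hy, rfl⟩⟩ := h1 V hVo hpV
    exact Set.disjoint_left.1 hUV (hNU hy) hV
  have hex : ∀ q : F, ∃ z : Z, j z = q.1.1 := by
    rintro ⟨⟨p, ⟨a, z, ha⟩⟩, hq⟩
    obtain ⟨y, _, hy⟩ := key z p (fun N hN => hq N ((ha N).2 hN))
    exact ⟨y, hy⟩
  choose g hg using hex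
  refine ⟨StoneCech Z, A, inferInstance, inferInstance, F, g, inferInstance, inferInstance,
    inferInstance, inferInstance, ?_, ?_, ?_⟩
  · have : F = ⋂ N : 𝓕, ({q : StoneCech Z × A | q.2.1 N = false} ∪
        {q : StoneCech Z × A | q.1 ∈ closure (j '' N.1)}) := by
      ext q
      simp only [mem_iInter]
      constructor
      · intro h N
        rcases hb : q.2.1 N with _ | _
        · exact Or.inl hb
        · exact Or.inr (h N hb)
      · intro h N hN
        rcases h N with h1 | h1
        · have h2 : q.2.1 N = false := h1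
          rw [hN] at h2
          exact absurd h2 (by decide)
        · exact h1
    rw [this]
    refine isClosed_iInter fun N => IsClosed.union ?_ ?_
    · have hcont : Continuous (fun q : StoneCech Z × A => q.2.1 N) :=
        (continuous_apply N).comp (continuous_subtype_val.comp continuous_snd)
      exact isClosed_eq hcont continuous_const
    · exact isClosed_closure.preimage continuous_fst
  · rw [hj.isInducing.continuous_iff]
    have : j ∘ g = fun q : F => q.1.1 := funext hg
    rw [this]
    exact continuous_fst.comp continuous_subtype_val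
  · intro z
    let a : A := ⟨fun N => decide (C z ⊆ N.1), z, fun N => decide_eq_true_iff⟩
    have hq : ((j z, a) : StoneCech Z × A) ∈ F := by
      intro N hN
      have : C z ⊆ N.1 := of_decide_eq_true hN
      exact subset_closure ⟨z, this (hzC z), rfl⟩
    exact ⟨⟨(j z, a), hq⟩, hj.injective (hg ⟨(j z, a), hq⟩)⟩

private lemma sigma_of_surjection {Z W : Type u} [TopologicalSpace Z] [TopologicalSpace W]
    (h : IsLindelofSigma Z) (s : Z → W) (hs : Continuous s) (hss : Function.Surjective s) :
    IsLindelofSigma W := by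
  obtain ⟨K, M, tK, tM, F, g, cK, hK, hM, mM, hF, hg, hgs⟩ := h
  exact ⟨K, M, tK, tM, F, s ∘ g, cK, hK, hM, mM, hF, hs.comp hg, hss.comp hgs⟩

private lemma cp_unit {X : Type u} [TopologicalSpace X] {a b : ℝ} (hab : a < b)
    (h : IsLindelofSigma (CpInterval X a b)) :
    IsLindelofSigma {f : X → Set.Icc (0:ℝ) 1 // Continuous f} := by
  have hba : 0 < b - a := sub_pos.2 hab
  refine sigma_of_surjection h
    (fun f => ⟨fun x => ⟨(f.1 x - a) / (b - a), div_nonneg (sub_nonneg.2 (f.2.2 x).1) hba.le,
      (div_le_one hba).2 (sub_le_sub_right (f.2.2 x).2 a)⟩, ?_⟩) ?_ ?_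
  · exact ((f.2.1.sub continuous_const).div_const _).subtype_mk _
  · refine Continuous.subtype_mk ?_ _
    refine continuous_pi fun x => Continuous.subtype_mk ?_ _
    exact ((((continuous_apply x).comp continuous_subtype_val)).sub continuous_const).div_const _
  · rintro ⟨f, hf⟩
    refine ⟨⟨fun x => a + (b - a) * (f x : ℝ), ?_, ?_⟩, ?_⟩
    · exact continuous_const.add (continuous_const.mul (continuous_subtype_val.comp hf))
    · intro x
      have h0 := (f x).2.1
      have h1 := (f x).2.2
      constructor
      · nlinarith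
      · nlinarith
    · apply Subtype.ext
      funext x
      apply Subtype.ext
      change (a + (b - a) * (f x : ℝ) - a) / (b - a) = f x
      field_simp
      ring

/-- The map of a realcompactification into the product of lines over all real functions. -/
private lemma closed_embedding {X R : Type u} [TopologicalSpace X] [TopologicalSpace R]
    {e : X → R} (he : IsRealcompactification e) :
    ∃ Φ : R → (C(X, ℝ) → ℝ), IsClosedEmbedding Φ ∧ ∀ x, Φ (e x) = Pool.Agent.H69.OkunevU.ev X x := by
  obtain ⟨J, φ, hφ⟩ := he.realcompact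
  have hext : ∀ f : C(X, ℝ), ∃ g : R → ℝ, Continuous g ∧ ∀ x, g (e x) = f x :=
    fun f => he.extension f f.continuous
  choose G hGc hGe using hext
  let Φ : R → (C(X, ℝ) → ℝ) := fun r f => G f r
  have hΦ : Continuous Φ := continuous_pi fun f => hGc f
  let w : J → C(X, ℝ) := fun i =>
    ⟨fun x => φ (e x) i, (continuous_apply i).comp (hφ.continuous.comp he.isEmbedding.continuous)⟩
  let ρ : (C(X, ℝ) → ℝ) → (J → ℝ) := fun p i => p (w i)
  have hρ : Continuous ρ := continuous_pi fun i => continuous_apply (w i)
  have hcomp : ρ ∘ Φ = φ := by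
    refine he.dense.equalizer (hρ.comp hΦ) hφ.continuous ?_
    funext x
    funext i
    exact hGe (w i) x
  have hproper : IsProperMap Φ := by
    refine isProperMap_of_comp_of_t2 hΦ hρ ?_
    rw [hcomp]
    exact hφ.isProperMap
  have hinj : Function.Injective Φ := by
    have : Function.Injective (ρ ∘ Φ) := by rw [hcomp]; exact hφ.injective
    exact this.of_comp
  refine ⟨Φ, IsClosedEmbedding.of_continuous_injective_isClosedMap hΦ hinj hproper.isClosedMap, ?_⟩
  intro x
  funext f
  exact hGe f x

/-- Every Tychonoff space has a Hewitt realcompactification. -/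
private lemma exists_realcompactification (X : Type u) [TopologicalSpace X] [T35Space X] :
    ∃ (R : Type u) (_ : TopologicalSpace R) (e : X → R), IsRealcompactification e := by
  let E : X → (C(X, ℝ) → ℝ) := Pool.Agent.H69.OkunevU.ev X
  have hEc : Continuous E := Pool.Agent.H69.OkunevU.continuous_ev X
  have hEi : IsInducing E := by
    rw [isInducing_iff_nhds]
    intro x
    refine le_antisymm (hEc.tendsto x).le_comap ?_
    intro U hU
    obtain ⟨V, hVU, hVo, hxV⟩ := mem_nhds_iff.1 hU
    obtain ⟨v, hv, hvx, hv1⟩ := CompletelyRegularSpace.completely_regular x Vᶜ hVo.isClosed_compl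
      (fun h => h hxV)
    let f : C(X, ℝ) := ⟨fun y => (v y : ℝ), continuous_subtype_val.comp hv⟩
    refine mem_comap.2 ⟨{p | p f < 1}, ?_, ?_⟩
    · refine (isOpen_lt (continuous_apply f) continuous_const).mem_nhds ?_
      change ((v x : ℝ)) < 1
      rw [hvx]
      simp
    · intro y hy
      apply hVU
      by_contra hyV
      have h1 : v y = 1 := hv1 hyV
      have h2 : ((v y : ℝ)) < 1 := hy
      rw [h1] at h2
      simp at h2
  have hEe : IsEmbedding E := by
    refine ⟨hEi, ?_⟩
    exact hEi.injective
  let R : Set (C(X, ℝ) → ℝ) := closure (range E)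
  let e : X → R := fun x => ⟨E x, subset_closure ⟨x, rfl⟩⟩
  have hval : Subtype.val ∘ e = E := rfl
  refine ⟨R, inferInstance, e, ⟨?_, ?_, ?_, ?_⟩⟩
  · have : IsEmbedding (Subtype.val ∘ e) := hEe
    exact this.of_comp (hEc.subtype_mk _) continuous_subtype_val
  · intro p
    rw [closure_subtype, ← range_comp, hval]
    exact p.2
  · exact ⟨C(X, ℝ), Subtype.val, isClosed_closure.isClosedEmbedding_subtypeVal⟩
  · intro f hf
    exact ⟨fun r => r.1 ⟨f, hf⟩, (continuous_apply _).comp continuous_subtype_val, fun x => rfl⟩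

/-- Okunev's question, answered positively: let `X` be a Tychonoff space and `a < b`. The Hewitt
realcompactification of `X` exists, and whatever model `e : X → R` of it is taken: if
`C_p(X,[a,b])` is a Lindelof Sigma-space then the closure in `R` of the set of the non-isolated
points of `X` is a Lindelof Sigma-space. -/
theorem result (X : Type u) [TopologicalSpace X] [T35Space X] :
    (∃ (R : Type u) (_ : TopologicalSpace R) (e : X → R), IsRealcompactification e) ∧
    ∀ (R : Type u) [TopologicalSpace R] (e : X → R), IsRealcompactification e →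
      ∀ a b : ℝ, a < b → IsLindelofSigma (CpInterval X a b) →
        IsLindelofSigma ↥(closure (e '' {x : X | ¬ IsOpen ({x} : Set X)})) := by
  refine ⟨exists_realcompactification X, ?_⟩
  intro R _ e he a b hab hCp
  obtain ⟨Φ, hΦ, hΦe⟩ := closed_embedding he
  obtain ⟨E, hE⟩ := Pool.Agent.H69.OkunevU.exists_family (network_of_sigma (cp_unit hab hCp))
  have hnet := Pool.Agent.H69.OkunevU.sigma_of_family E hE
  have hT := sigma_of_network hnet
  have himg : closure ((fun x : X => fun f : C(X, ℝ) => f x) '' {x : X | ¬ IsOpen ({x} : Set X)}) =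
      Φ '' closure (e '' {x : X | ¬ IsOpen ({x} : Set X)}) := by
    rw [← hΦ.closure_image_eq, ← image_comp]
    congr 1
    refine image_congr fun x _ => ?_
    exact (hΦe x).symm
  have hch : ∀ t : ↥(closure ((fun x : X => fun f : C(X, ℝ) => f x) ''
      {x : X | ¬ IsOpen ({x} : Set X)})),
      ∃ r : ↥(closure (e '' {x : X | ¬ IsOpen ({x} : Set X)})), Φ r.1 = t.1 := by
    rintro ⟨t, ht⟩
    rw [himg] at ht
    obtain ⟨r, hr, hrt⟩ := ht
    exact ⟨⟨r, hr⟩, hrt⟩
  choose s hs using hch
  refine sigma_of_surjection hT s ?_ ?_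
  · refine continuous_induced_rng.2 ?_
    rw [hΦ.isInducing.continuous_iff]
    have : Φ ∘ (Subtype.val ∘ s) = Subtype.val := funext hs
    rw [this]
    exact continuous_subtype_val
  · rintro ⟨r, hr⟩
    have ht : Φ r ∈ closure ((fun x : X => fun f : C(X, ℝ) => f x) ''
        {x : X | ¬ IsOpen ({x} : Set X)}) := by
      rw [himg]
      exact ⟨r, hr, rfl⟩
    refine ⟨⟨Φ r, ht⟩, ?_⟩
    apply Subtype.ext
    exact hΦ.injective (hs ⟨Φ r, ht⟩)

end Pool.Agent.Results.MP_d57a60_gt.ClosureInRealcompactification
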